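import Pool.Agent.W811.LW.Stm

/-! The averaging lemma for one vector (part AVL of project LW). -/

set_option autoImplicit false

open Finset Filter Topology Pool.Agent.W811.LW

namespace Pool.Agent.W740.LW

theorem rs_anti {x y : ℝ} (hy : 0 < y) (h : y ≤ x) : rs x ≤ rs y :=
  inv_anti₀ (Real.sqrt_pos.2 hy) (Real.sqrt_le_sqrt h)

theorem rs_mul {c : ℝ} (hc : 0 ≤ c) (x : ℝ) : rs (c * x) = rs c * rs x := by
  unfold rs
  rw [Real.sqrt_mul hc, mul_inv]

theorem rs_nonneg (x : ℝ) : 0 ≤ rs x := inv_nonneg.2 (Real.sqrt_nonneg _)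

/-- the telescoping function -/
noncomputable def g (y : ℝ) : ℝ := Real.sqrt y - Real.sqrt (-y)

theorem sqrt_add_le' (x n : ℝ) (hn : 0 ≤ n) : Real.sqrt (x + n) ≤ Real.sqrt x + Real.sqrt n := by
  rcases le_total 0 x with hx | hx
  · rw [Real.sqrt_le_iff]
    refine ⟨by positivity, ?_⟩
    have h1 := Real.sq_sqrt hx
    have h2 := Real.sq_sqrt hn
    have h3 := mul_nonneg (Real.sqrt_nonneg x) (Real.sqrt_nonneg n)
    nlinarith
  · have h1 : Real.sqrt (x + n) ≤ Real.sqrt n := Real.sqrt_le_sqrt (by linarith)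
    linarith [Real.sqrt_nonneg x]

theorem g_diff (s n : ℝ) (hn : 0 ≤ n) : g (s + n) - g s ≤ 2 * Real.sqrt n := by
  unfold g
  have h1 := sqrt_add_le' s n hn
  have h2 := sqrt_add_le' (-(s + n)) n hn
  have h3 : -(s + n) + n = -s := by ring
  rw [h3] at h2
  linarith

theorem aux {m p q : ℝ} (hm : 0 < m) (hq : 0 ≤ q) (hp : 0 < p) (h : p ^ 2 - q ^ 2 = 1)
    (h3 : p + q ≤ 3 * m) : m⁻¹ ≤ 3 * (p - q) := by
  have h1 : (p - q) * (p + q) = 1 := by nlinarith
  have h2 : 0 < p - q := by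
    by_contra hcon
    push Not at hcon
    have h4 : (p - q) * (p + q) ≤ 0 := mul_nonpos_of_nonpos_of_nonneg hcon (by linarith)
    linarith
  rw [inv_le_iff_one_le_mul₀ hm]
  calc (1 : ℝ) = (p - q) * (p + q) := h1.symm
    _ ≤ (p - q) * (3 * m) := mul_le_mul_of_nonneg_left h3 h2.le
    _ = 3 * (p - q) * m := by ring

theorem pw (x : ℝ) : rs (max |x| 1) ≤ 3 * (g (x + 1) - g x) := by
  have hm1 : (1 : ℝ) ≤ max |x| 1 := le_max_right _ _
  have hm : 0 < Real.sqrt (max |x| 1) := Real.sqrt_pos.2 (by linarith)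
  have hmsq : Real.sqrt (max |x| 1) ^ 2 = max |x| 1 := Real.sq_sqrt (by linarith)
  rcases le_or_gt 0 x with hx | hx
  · have e1 : g (x + 1) = Real.sqrt (x + 1) := by
      unfold g
      rw [Real.sqrt_eq_zero_of_nonpos (by linarith : -(x + 1) ≤ 0), sub_zero]
    have e2 : g x = Real.sqrt x := by
      unfold g
      rw [Real.sqrt_eq_zero_of_nonpos (by linarith : -x ≤ 0), sub_zero]
    rw [e1, e2]
    have hxm : x ≤ max |x| 1 := (le_abs_self x).trans (le_max_left _ _)
    have hp : Real.sqrt (x + 1) ≤ 3 / 2 * Real.sqrt (max |x| 1) := by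
      rw [Real.sqrt_le_iff]
      refine ⟨by positivity, ?_⟩
      rw [mul_pow, hmsq]
      linarith
    have hq : Real.sqrt x ≤ Real.sqrt (max |x| 1) := Real.sqrt_le_sqrt hxm
    refine aux hm (Real.sqrt_nonneg _) (Real.sqrt_pos.2 (by linarith)) ?_ (by linarith)
    rw [Real.sq_sqrt (by linarith), Real.sq_sqrt hx]
    ring
  · rcases le_or_gt x (-1) with hx1 | hx1
    · have e1 : g (x + 1) = -Real.sqrt (-(x + 1)) := by
        unfold g
        rw [Real.sqrt_eq_zero_of_nonpos (by linarith : x + 1 ≤ 0), zero_sub]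
      have e2 : g x = -Real.sqrt (-x) := by
        unfold g
        rw [Real.sqrt_eq_zero_of_nonpos (by linarith : x ≤ 0), zero_sub]
      have e3 : max |x| 1 = -x := by
        rw [abs_of_neg hx, max_eq_left (by linarith)]
      rw [e1, e2]
      rw [e3] at hm ⊢
      have h1 : -Real.sqrt (-(x + 1)) - -Real.sqrt (-x) =
          Real.sqrt (-x) - Real.sqrt (-(x + 1)) := by ring
      rw [h1]
      have hq : Real.sqrt (-(x + 1)) ≤ Real.sqrt (-x) := Real.sqrt_le_sqrt (by linarith)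
      refine aux hm (Real.sqrt_nonneg _) hm ?_ (by linarith)
      rw [Real.sq_sqrt (by linarith), Real.sq_sqrt (by linarith)]
      ring
    · have e1 : g (x + 1) = Real.sqrt (x + 1) := by
        unfold g
        rw [Real.sqrt_eq_zero_of_nonpos (by linarith : -(x + 1) ≤ 0), sub_zero]
      have e2 : g x = -Real.sqrt (-x) := by
        unfold g
        rw [Real.sqrt_eq_zero_of_nonpos (by linarith : x ≤ 0), zero_sub]
      have e3 : max |x| 1 = 1 := by
        rw [abs_of_neg hx, max_eq_right (by linarith)]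
      rw [e1, e2, e3]
      have h1 : x + 1 ≤ Real.sqrt (x + 1) := Real.le_sqrt_of_sq_le (by nlinarith)
      have h2 : -x ≤ Real.sqrt (-x) := Real.le_sqrt_of_sq_le (by nlinarith)
      have h3 : rs 1 = 1 := by unfold rs; simp
      rw [h3]
      linarith

theorem sum_pw (u : ℝ) (n : ℕ) :
    ∑ d ∈ range n, rs (max |(d : ℝ) - u| 1) ≤ 6 * Real.sqrt n := by
  calc ∑ d ∈ range n, rs (max |(d : ℝ) - u| 1)
      ≤ ∑ d ∈ range n, 3 * (g (((d + 1 : ℕ) : ℝ) - u) - g ((d : ℝ) - u)) := by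
        refine Finset.sum_le_sum fun d _ => ?_
        have h := pw ((d : ℝ) - u)
        have e : (d : ℝ) - u + 1 = ((d + 1 : ℕ) : ℝ) - u := by push_cast; ring
        rw [e] at h
        exact h
    _ = 3 * (g ((n : ℝ) - u) - g (((0 : ℕ) : ℝ) - u)) := by
        rw [← Finset.mul_sum, Finset.sum_range_sub (fun d : ℕ => g ((d : ℝ) - u))]
    _ ≤ 6 * Real.sqrt n := by
        have h := g_diff (((0 : ℕ) : ℝ) - u) n (Nat.cast_nonneg n)
        have e : ((0 : ℕ) : ℝ) - u + n = (n : ℝ) - u := by push_cast; ring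
        rw [e] at h
        linarith

theorem avl : AVL := by
  intro D P R a b hD hP hR hPR hab
  have hD' : (1 : ℝ) ≤ D := by exact_mod_cast hD
  have hD0 : (0 : ℝ) < D := by linarith
  have hP0 : 0 < P := by linarith
  have hR0 : 0 < R := by linarith
  have hcard : ((D ^ 2 : ℕ) : ℝ) = (D : ℝ) ^ 2 := by push_cast; ring
  rcases le_or_gt (2 * |b|) |a| with h | h
  · have ha : 0 < |a| := by
      rcases hab with h1 | h1
      · exact abs_pos.2 h1
      · have := abs_pos.2 h1
        linarith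
    have hmax : max |a| |b| = |a| := max_eq_left (by linarith [abs_nonneg b])
    rw [hmax]
    have hterm : ∀ d ∈ range (D ^ 2),
        rs (max |P * (a + (d : ℝ) / (D : ℝ) ^ 2 * b)| |b / R|) ≤ 16 * rs P * rs |a| := by
      intro d hd
      have hd' : (d : ℝ) ≤ (D : ℝ) ^ 2 := by
        rw [← hcard]
        exact_mod_cast (Finset.mem_range.1 hd).le
      have hθ0 : 0 ≤ (d : ℝ) / (D : ℝ) ^ 2 := by positivity
      have hθ1 : (d : ℝ) / (D : ℝ) ^ 2 ≤ 1 := div_le_one_of_le₀ hd' (by positivity)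
      have h1 : |a| / 2 ≤ |a + (d : ℝ) / (D : ℝ) ^ 2 * b| := by
        have h2 : |a| - |(d : ℝ) / (D : ℝ) ^ 2 * b| ≤ |a + (d : ℝ) / (D : ℝ) ^ 2 * b| := by
          have h4 := abs_sub_abs_le_abs_sub a (-((d : ℝ) / (D : ℝ) ^ 2 * b))
          rw [abs_neg, sub_neg_eq_add] at h4
          exact h4
        have h3 : |(d : ℝ) / (D : ℝ) ^ 2 * b| ≤ |b| := by
          rw [abs_mul, abs_of_nonneg hθ0]
          exact mul_le_of_le_one_left (abs_nonneg b) hθ1
        linarith
      have h5 : P * |a| / 4 ≤ max |P * (a + (d : ℝ) / (D : ℝ) ^ 2 * b)| |b / R| := by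
        refine le_trans ?_ (le_max_left _ _)
        rw [abs_mul, abs_of_pos hP0]
        have h6 := mul_le_mul_of_nonneg_left h1 hP0.le
        have h7 : 0 ≤ P * |a| := by positivity
        linarith
      refine (rs_anti (by positivity) h5).trans ?_
      have h8 : P * |a| / 4 = P * (|a| * (1 / 4)) := by ring
      rw [h8, rs_mul hP0.le, rs_mul ha.le]
      have h9 : rs (1 / 4) = 2 := by
        unfold rs
        have : (1 / 4 : ℝ) = (1 / 2) ^ 2 := by norm_num
        rw [this, Real.sqrt_sq (by norm_num)]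
        norm_num
      rw [h9]
      have h10 := mul_nonneg (rs_nonneg P) (rs_nonneg |a|)
      nlinarith
    refine (Finset.sum_le_card_nsmul _ _ _ hterm).trans (le_of_eq ?_)
    rw [Finset.card_range, nsmul_eq_mul, hcard]
  · have hb : 0 < |b| := by
      by_contra hcon
      push Not at hcon
      linarith [abs_nonneg a]
    have hb0 : b ≠ 0 := abs_pos.1 hb
    have hterm : ∀ d : ℕ, rs (max |P * (a + (d : ℝ) / (D : ℝ) ^ 2 * b)| |b / R|) =
        rs (|b| / R) * rs (max |(d : ℝ) - (-a * (D : ℝ) ^ 2 / b)| 1) := by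
      intro d
      rw [← rs_mul (by positivity : 0 ≤ |b| / R), mul_max_of_nonneg _ _ (by positivity), mul_one]
      have e1 : P * (a + (d : ℝ) / (D : ℝ) ^ 2 * b) =
          b / R * ((d : ℝ) - (-a * (D : ℝ) ^ 2 / b)) := by
        rw [← hPR]
        field_simp
        ring
      rw [e1, abs_mul, abs_div, abs_of_pos hR0]
    rw [Finset.sum_congr rfl fun d _ => hterm d, ← Finset.mul_sum]
    have h1 := sum_pw (-a * (D : ℝ) ^ 2 / b) (D ^ 2)
    rw [hcard, Real.sqrt_sq hD0.le] at h1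
    have h2 : rs (|b| / R) = rs |b| * Real.sqrt R := by
      unfold rs
      rw [Real.sqrt_div' _ hR0.le, inv_div, div_eq_mul_inv, mul_comm]
    have hsb : 0 < Real.sqrt |b| := Real.sqrt_pos.2 hb
    have hM0 : 0 < max |a| |b| := lt_of_lt_of_le hb (le_max_right _ _)
    have hsM : 0 < Real.sqrt (max |a| |b|) := Real.sqrt_pos.2 hM0
    have hsP : 0 < Real.sqrt P := Real.sqrt_pos.2 hP0
    have hM : Real.sqrt (max |a| |b|) ≤ 3 / 2 * Real.sqrt |b| := by
      rw [Real.sqrt_le_iff]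
      refine ⟨by positivity, ?_⟩
      rw [mul_pow, Real.sq_sqrt hb.le]
      refine max_le ?_ ?_ <;> linarith
    have h3 : rs |b| ≤ 3 / 2 * rs (max |a| |b|) := by
      unfold rs
      rw [inv_le_iff_one_le_mul₀ hsb]
      calc (1 : ℝ) = Real.sqrt (max |a| |b|) * (Real.sqrt (max |a| |b|))⁻¹ :=
            (mul_inv_cancel₀ hsM.ne').symm
        _ ≤ (3 / 2 * Real.sqrt |b|) * (Real.sqrt (max |a| |b|))⁻¹ :=
            mul_le_mul_of_nonneg_right hM (inv_nonneg.2 hsM.le)
        _ = 3 / 2 * (Real.sqrt (max |a| |b|))⁻¹ * Real.sqrt |b| := by ring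
    have h4 : Real.sqrt P * Real.sqrt R = D := by
      rw [← Real.sqrt_mul hP0.le, hPR, Real.sqrt_sq hD0.le]
    have h5 : (D : ℝ) ^ 2 * rs P = D * Real.sqrt R := by
      unfold rs
      rw [sq, mul_assoc, ← h4]
      field_simp
    calc rs (|b| / R) * ∑ d ∈ range (D ^ 2), rs (max |(d : ℝ) - (-a * (D : ℝ) ^ 2 / b)| 1)
        ≤ rs (|b| / R) * (6 * D) := mul_le_mul_of_nonneg_left h1 (rs_nonneg _)
      _ = 6 * (D * Real.sqrt R) * rs |b| := by rw [h2]; ring
      _ ≤ 6 * (D * Real.sqrt R) * (3 / 2 * rs (max |a| |b|)) :=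
          mul_le_mul_of_nonneg_left h3 (by positivity)
      _ = 9 * ((D : ℝ) ^ 2 * rs P) * rs (max |a| |b|) := by rw [h5]; ring
      _ ≤ (D : ℝ) ^ 2 * (16 * rs P * rs (max |a| |b|)) := by
          have h6 : 0 ≤ (D : ℝ) ^ 2 * rs P * rs (max |a| |b|) :=
            mul_nonneg (mul_nonneg (by positivity) (rs_nonneg _)) (rs_nonneg _)
          nlinarith

end Pool.Agent.W740.LW
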